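import Pool.Agent.H498R3.GBPenrose
import Pool.Agent.H498R3.GBComplete

/-!
The Penrose inequality for the Gauss-Bonnet-Chern mass and area outer minimizing horizons
(MP_a8efab_gt, Q1) is false: on `M = {x ∈ ℝ^6 : |x| ≥ 1}` there is a smooth Riemannian metric,
flat outside a compact set, with `L_2 ≥ 0` integrable, whose boundary (the unit sphere) is minimal
and area outer minimizing, while `m_2 = 0`.

The metric is `g = δ + h(|x|²) Jx ⊗ Jx` with `J` the complex structure of `ℝ^6 = ℂ^3` and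
`h(s) = exp(11 - 11/(2-s))` for `s < 2`, `h(s) = 0` for `s ≥ 2`.
-/

namespace Pool.Agent.Results.MP_a8efab_gt.PenroseFails

open Pool.Agent.H498R3.GB MeasureTheory

theorem result : ∃ g : MetricField 6,
    IsRiemannianOn g Set.univ ∧ IsCompleteMetric g ∧
    (∃ R : ℝ, ∀ x : E 6, R ≤ ‖x‖ → g x = 1) ∧
    (∀ τ : ℝ, IsAsymptoticallyFlat g τ) ∧
    IntegrableOn (fun x => L2 g x * volDensity g x) {x | 1 ≤ ‖x‖} ∧
    (∀ x, 0 ≤ L2 g x) ∧
    UnitSphereOuterMinimizing g ∧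
    HasGBCMass g 0 ∧
    0 < 1 / 4 * (sphereArea g 1 / omegaSphere 6) ^ (((6 : ℝ) - 4) / (6 - 1)) :=
  ⟨g6, g6_riem, g6_complete, ⟨2, fun x hx => g6_eq_one (by nlinarith)⟩, g6_AF,
    L2_g6_integrable.integrableOn, L2_g6_nonneg, g6_outerMinimizing, g6_mass, g6_rhs_pos⟩

end Pool.Agent.Results.MP_a8efab_gt.PenroseFails
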